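import Pool.Agent.H368.WC.Gap
import Pool.Agent.H368.WC.Transfer

/-!
# A warped cone of an action with spectral gap whose coarse assembly map is surjective

The action is the Bernoulli shift of the free group `F₂` on the compact space
`M = [0, 1]^{F₂}` with the metric `dist x y = sup_g 2^{-|g|} |x_g - y_g|` and the product `m` of
Lebesgue measures. It is bi-Lipschitz, measure preserving, ergodic, upper uniform, and has a
spectral gap. Scaling by a number `0 < a ≤ 1` is a contraction of `M` which commutes with the
action. Hence the maps `f_n (x, t) = ((t / (t + n)) x, t + n)` show that the warped cone is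
flasque, and the `K`-theory of its Roe algebra vanishes by an Eilenberg swindle.

How the definitions match the problem:

* `Cone M = M × [1, ∞)` is the underlying set of `Cone(M)` and of the warped cone, with the end
  `M × {1}` (a null set) included, so that it is a proper metric space; `coneMeasure m` is the
  product of `m` and Lebesgue measure;
* `IsConeMetric dC`: `dC` is any metric bi-Lipschitz equivalent to `|t - s| + min(t, s) dist(x, y)`;
* `IsWarpedMetric S dC dO`: `dO` is the largest metric such that `dO ≤ dC` and
  `dO ((x, t), (s x, t)) ≤ 1` for `s ∈ S`;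
* `roeSet (coneMeasure m) dO` is the norm closure, in the algebra `Op (coneMeasure m)` of bounded
  operators on `L²(O, ν)`, of the set of all locally compact operators of finite propagation, and
  `IsIsometricIsoOnto ι (roeSet (coneMeasure m) dO)` says that `ι` identifies the Banach algebra
  `A` with this subset, so that `A` is the Roe algebra;
* `KGroup n A` is `Kₙ(A) = K₀(C₀(ℝⁿ, A))`.
-/

set_option autoImplicit false

namespace Pool.Agent.Results.MP_d7e228_al.AssemblySurjective

open MeasureTheory Pool.Agent.H368.WC
open scoped ENNReal NNReal

theorem result :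
    ∃ (M : Type) (_ : MetricSpace M) (_ : CompactSpace M) (_ : MeasurableSpace M)
      (_ : BorelSpace M) (m : Measure M) (_ : IsProbabilityMeasure m)
      (G : Type) (_ : Group G) (_ : MulAction G M) (S : Finset G),
      HasSpectralGapAction m S ∧ IsConeMetric (coneDist (M := M)) ∧
      ∀ dC : Cone M → Cone M → ℝ, IsConeMetric dC →
        ∃ dO : Cone M → Cone M → ℝ, IsWarpedMetric S dC dO ∧
          ∃ (A : Type) (_ : BanachAlg A) (ι : A → Op (coneMeasure m)),
            IsIsometricIsoOnto ι (roeSet (coneMeasure m) dO) ∧
            ∀ n : ℕ, Subsingleton (KGroup n A) ∧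
              ∀ (L : Type) [AddCommGroup L] (μ : L →+ KGroup n A), Function.Surjective μ := by
  refine ⟨Bern, inferInstance, inferInstance, inferInstance, inferInstance, Bern.μ, inferInstance,
    F2, inferInstance, inferInstance, Bern.gens, ?_, isConeMetric_coneDist Bern.dist_le_one,
    fun dC hC => ?_⟩
  · exact
      { upper_uniform := Bern.upper_uniform
        symm := Bern.gens_symm
        generates := Bern.closure_gens
        lipschitz := Bern.lipschitz
        ergodic := inferInstance
        spectral_gap := ⟨1 / 4, by norm_num, Bern.spectral_gap⟩ }
  · have h1 := exists_isWarpedMetric Bern.gens hC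
    obtain ⟨dO, hd⟩ := h1
    have h2 := roe_vanish Bern.μ hC hd Bern.contr Bern.contr_one
      (fun a h0 h1 x y => Bern.dist_contr h0 h1 x y)
      (fun a b h0 h1 h0' h1' x => Bern.dist_contr_contr h0 h1 h0' h1' x)
      (fun a s x => Bern.contr_smul a s x)
    obtain ⟨A, i1, ι, h3, h4⟩ := transfer _ _ h2
    exact ⟨dO, hd, A, i1, ι, h3,
      fun n => ⟨h4 n, fun L _ μ => surjective_of_subsingleton (h4 n) μ⟩⟩

end Pool.Agent.Results.MP_d7e228_al.AssemblySurjective
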